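import Pool.Agent.R314.JM.Scale

/-!
# Sup norms on sets of small dimension, for almost all Maass forms (MP_8fded1_nt)

The suprema of the members of an orthonormal family of Maass forms with spectral parameters at most `T` over a set `Z`
which is covered by `N` discs of radius `1/(100 T)` (the wave length) are square summable with sum at most `C N T²`;
by Weyl's law there are about `T²/12` Hecke-Maass cusp forms. No compactness of `Z` and no Hecke operators are used.

Proof: a local Weyl bound `∑_j |∂^α f_j(z)|² ≤ C T^(2 + 2 |α|)`, proved here from the elliptic regularity of the starting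
library (`Pool.Agent.Y265.HY.SB7`) and a covering of a neighbourhood of the fundamental domain by twelve translates, and
a scaled Sobolev inequality (`Pool.Agent.TH421.DF.sup_le`).
-/

set_option autoImplicit false
open MeasureTheory Complex
open scoped ContDiff

namespace Pool.Agent.Results.MP_8fded1_nt.SetsOfSmallDimension

noncomputable section

/-- the fundamental domain `|x| ≤ 1/2`, `|z| ≥ 1` of the modular group in the upper half plane -/
def D : Set ℂ := {z : ℂ | 0 < z.im ∧ |z.re| ≤ 1 / 2 ∧ 1 ≤ ‖z‖}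

/-- the Laplacian `∂x² + ∂y²` -/
def lapl (f : ℂ → ℝ) (z : ℂ) : ℝ :=
  fderiv ℝ (fun w => fderiv ℝ f w 1) z 1 + fderiv ℝ (fun w => fderiv ℝ f w I) z I

/-- the integral over the modular surface with respect to `dx dy / y²` -/
def II (F : ℂ → ℝ) : ℝ := ∫ z in D, F z / z.im ^ 2

/-- `f` is a smooth real square integrable eigenfunction on the modular surface with eigenvalue `1/4 + t²`, normalised
by `∫ f² dμ = 1`; all real normalised Hecke-Maass cusp forms are of this kind -/
structure MaassForm (t : ℝ) (f : ℂ → ℝ) : Prop where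
  smooth : ContDiffOn ℝ ∞ f {z : ℂ | 0 < z.im}
  eigen : ∀ z : ℂ, 0 < z.im → -(z.im ^ 2 * lapl f z) = (1 / 4 + t ^ 2) * f z
  inv : ∀ z : ℂ, 0 < z.im → f (z + 1) = f z ∧ f (-z⁻¹) = f z
  int : IntegrableOn (fun z => f z ^ 2 / z.im ^ 2) D
  norm : II (fun z => f z ^ 2) = 1

/-- an orthonormal family of `m` forms with spectral parameters at most `T` -/
structure Family (T : ℝ) {m : ℕ} (f : Fin m → ℂ → ℝ) : Prop where
  form : ∀ j, ∃ t : ℝ, |t| ≤ T ∧ MaassForm t (f j)
  orth : ∀ i j, i ≠ j → II (fun z => f i z * f j z) = 0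

/-- the part of the fundamental domain below the height `Y` -/
def Below (Y : ℝ) : Set ℂ := {z ∈ D | z.im ≤ Y}

/-- `Z` is covered by `N` discs of radius `r` with centres in `Z` -/
def Covered (Z : Set ℂ) (N : ℕ) (r : ℝ) : Prop := ∃ c : Fin N → ℂ, (∀ k, c k ∈ Z) ∧ ∀ z ∈ Z, ∃ k, dist z (c k) < r

/-- the members of the family which somewhere on `Z` have absolute value at least `V` -/
def large {m : ℕ} (f : Fin m → ℂ → ℝ) (Z : Set ℂ) (V : ℝ) : Set (Fin m) := {j | ∃ z ∈ Z, V ≤ |f j z|}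

/-- There is a constant `C`, depending only on the height `Y`, with the following properties.
(1) If `Z` lies below the height `Y` and is covered by `N` discs of radius `1/(100 T)`, then `∑_j f_j(w_j)² ≤ C N T²` for
every choice of points `w_j` in `Z` (so the same holds for the sum of the squares of the suprema over `Z`), and at most
`C N T² / V²` members of the family exceed `V` somewhere on `Z`.
(2) If for all `T ≥ 1` the set `Z` is covered by at most `A T^d` discs of radius `1/(100 T)` (upper box dimension at most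
`d`), then at most `C A T^(2 + d - 2 δ)` members of the family exceed `T^δ` somewhere on `Z`. -/
theorem result (Y : ℝ) : ∃ C : ℝ, 0 < C ∧
    (∀ T : ℝ, 1 ≤ T → ∀ (m : ℕ) (f : Fin m → ℂ → ℝ), Family T f → ∀ Z ⊆ Below Y, ∀ N : ℕ,
      Covered Z N (1 / (100 * T)) →
      (∀ w : Fin m → ℂ, (∀ j, w j ∈ Z) → ∑ j, f j (w j) ^ 2 ≤ C * N * T ^ 2) ∧
      ∀ V : ℝ, 0 < V → ((large f Z V).ncard : ℝ) ≤ C * N * T ^ 2 / V ^ 2) ∧
    (∀ (d A δ : ℝ), ∀ Z ⊆ Below Y, (∀ T : ℝ, 1 ≤ T → ∃ N : ℕ, (N : ℝ) ≤ A * T ^ d ∧ Covered Z N (1 / (100 * T))) →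
      ∀ T : ℝ, 1 ≤ T → ∀ (m : ℕ) (f : Fin m → ℂ → ℝ), Family T f →
        ((large f Z (T ^ δ)).ncard : ℝ) ≤ C * A * T ^ (2 + d - 2 * δ)) := by
  classical
  obtain ⟨C, hC, h⟩ := Pool.Agent.R314.JM.sup_sum' Y
  have main : ∀ T : ℝ, 1 ≤ T → ∀ (m : ℕ) (f : Fin m → ℂ → ℝ), Family T f → ∀ Z ⊆ Below Y, ∀ N : ℕ,
      Covered Z N (1 / (100 * T)) → ∀ w : Fin m → ℂ, (∀ j, w j ∈ Z) → ∑ j, f j (w j) ^ 2 ≤ C * N * T ^ 2 := by
    intro T hT m f hf Z hZ N hN w hw
    choose t ht hft using hf.form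
    obtain ⟨c, hc, hcov⟩ := hN
    refine h T hT m t f (fun i => ⟨(hft i).smooth, fun z hz => (hft i).eigen z hz, (hft i).inv, (hft i).int⟩)
      (fun i j => ?_) ht N c (fun k => ?_) w (fun i => hcov (w i) (hw i))
    · by_cases hij : i = j
      · subst hij
        rw [if_pos rfl, ← (hft i).norm]
        show _ = ∫ z in D, f i z ^ 2 / z.im ^ 2
        simp only [sq (f i _)]
        rfl
      · rw [if_neg hij]; exact hf.orth i j hij
    · obtain ⟨h1, h2⟩ := hZ (hc k)
      exact ⟨h1.2.1, h1.2.2, h1.1.le, h2⟩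
  have count : ∀ T : ℝ, 1 ≤ T → ∀ (m : ℕ) (f : Fin m → ℂ → ℝ), Family T f → ∀ Z ⊆ Below Y, ∀ N : ℕ,
      Covered Z N (1 / (100 * T)) → ∀ V : ℝ, 0 < V → ((large f Z V).ncard : ℝ) ≤ C * N * T ^ 2 / V ^ 2 := by
    intro T hT m f hf Z hZ N hN V hV
    by_cases hne : Z.Nonempty
    swap
    · rw [Set.not_nonempty_iff_eq_empty] at hne
      have e : large f Z V = ∅ := by
        ext j; simp [large, hne]
      rw [e, Set.ncard_empty, Nat.cast_zero]
      positivity
    obtain ⟨z₀, hz₀⟩ := hne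
    have hex : ∀ j, ∃ z ∈ Z, (j ∈ large f Z V → V ≤ |f j z|) := by
      intro j
      by_cases hj : j ∈ large f Z V
      · obtain ⟨z, hz, hz2⟩ := hj
        exact ⟨z, hz, fun _ => hz2⟩
      · exact ⟨z₀, hz₀, fun h => absurd h hj⟩
    choose w hw hw2 using hex
    have k := main T hT m f hf Z hZ N hN w hw
    rw [le_div_iff₀ (by positivity)]
    refine le_trans ?_ k
    have e1 : large f Z V = ((Finset.univ.filter fun j => j ∈ large f Z V) : Finset (Fin m)) := by
      ext j; simp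
    rw [e1, Set.ncard_coe_finset, ← nsmul_eq_mul, ← Finset.sum_const]
    refine (Finset.sum_le_sum (g := fun j => f j (w j) ^ 2) fun j hj => ?_).trans
      (Finset.sum_le_sum_of_subset_of_nonneg (Finset.filter_subset _ _) fun j _ _ => sq_nonneg _)
    rw [← sq_abs (f j (w j))]
    exact pow_le_pow_left₀ hV.le (hw2 j (Finset.mem_filter.1 hj).2) 2
  refine ⟨C, hC, fun T hT m f hf Z hZ N hN => ⟨main T hT m f hf Z hZ N hN, count T hT m f hf Z hZ N hN⟩, ?_⟩
  intro d A δ Z hZ hcov T hT m f hf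
  obtain ⟨N, hN, hN2⟩ := hcov T hT
  have T0 : 0 < T := by linarith
  refine (count T hT m f hf Z hZ N hN2 (T ^ δ) (Real.rpow_pos_of_pos T0 _)).trans ?_
  have e1 : (T ^ δ) ^ 2 = T ^ (2 * δ) := by
    rw [← Real.rpow_natCast, ← Real.rpow_mul T0.le]
    congr 1; push_cast; ring
  rw [e1, div_le_iff₀ (Real.rpow_pos_of_pos T0 _), mul_assoc (C * A), ← Real.rpow_add T0]
  have e2 : 2 + d - 2 * δ + 2 * δ = d + (2 : ℕ) := by push_cast; ring
  rw [e2, Real.rpow_add T0, Real.rpow_natCast]
  calc C * N * T ^ 2 ≤ C * (A * T ^ d) * T ^ 2 := by gcongr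
    _ = C * A * (T ^ d * T ^ 2) := by ring

end

end Pool.Agent.Results.MP_8fded1_nt.SetsOfSmallDimension
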