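import Pool.Agent.R728.RC.Each
import Pool.Agent.Results.MP_8fded1_nt.SetsOfSmallDimension

/-!
# Random Maass forms on sets `Z_m` of small dimension, at all scales of a thin set

Let `𝓜` be a set of positive integers with `∑ m ^ (-s) < ∞`, for instance the powers of two with
any `s > 0`. For each `m` in `𝓜` let `f m` be an orthonormal family of Maass forms on the modular
surface with spectral parameters at most `m` (by Weyl's law about `m² / 12` Hecke-Maass cusp
forms), and let `X m` be a random member of it, each member having probability at most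
`K m ^ (-θ)` (`θ = 2` for the uniform distribution; no independence is assumed). Let `Z m` be sets
in the fundamental domain below a height `Y` which are covered by at most `A m ^ d` discs of radius
`1 / (100 m)`, for instance sets of at most `A m ^ d` points, and let `2 + d - 2 δ ≤ θ - s`. Almost
surely, for all but finitely many `m` in `𝓜`, the form `f m (X m)` is smaller than `m ^ δ` at ALL
points of `Z m`.

So for `θ = 2` a random form satisfies the conjectured bound `T ^ ε` at all points of any given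
sequence of sets with at most `m ^ ε` points, for instance at the first `m ^ ε` members of an
enumeration of the CM points, and the bound `T ^ δ` at `m ^ d` points for `δ > d / 2`.
-/

set_option autoImplicit false

namespace Pool.Agent.Results.MP_8fded1_nt.RandomForms

open MeasureTheory SetsOfSmallDimension

/-- **Theorem.** Let `𝓜` be a set of positive integers with a convergent sum of the `m ^ (-s)`.
For `m` in `𝓜` let `f m` be an orthonormal family of Maass forms on the modular surface with
spectral parameters at most `m`, let `X m` be a random index, each value of which has probability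
at most `K m ^ (-θ)` (no independence is assumed), and let `Z m` be a subset of the fundamental
domain below the height `Y` which is covered by `N m ≤ A m ^ d` discs of radius `1 / (100 m)` with
centres in `Z m`. If `2 + d - 2 δ ≤ θ - s`, then almost surely, for all but finitely many `m` in
`𝓜`, the absolute value of `f m (X m)` is less than `m ^ δ` at all points of `Z m`. -/
theorem result (Y : ℝ) (𝓜 : Set ℕ) (s θ K A d δ : ℝ) (Ω : Type) [MeasurableSpace Ω]
    (P : Measure Ω) (n : ℕ → ℕ) (f : ∀ m : ℕ, Fin (n m) → ℂ → ℝ) (X : ∀ m : ℕ, Ω → Fin (n m))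
    (Z : ℕ → Set ℂ) (N : ℕ → ℕ)
    (h0 : ∀ m ∈ 𝓜, 0 < m) (hsum : Summable fun m : 𝓜 => ((m : ℕ) : ℝ) ^ (-s))
    (hf : ∀ m ∈ 𝓜, Family (m : ℝ) (f m))
    (hX : ∀ m ∈ 𝓜, ∀ j : Fin (n m), P {ω | X m ω = j} ≤ ENNReal.ofReal (K * (m : ℝ) ^ (-θ)))
    (hZ : ∀ m ∈ 𝓜, Z m ⊆ Below Y) (hN : ∀ m ∈ 𝓜, (N m : ℝ) ≤ A * (m : ℝ) ^ d)
    (hc : ∀ m ∈ 𝓜, Covered (Z m) (N m) (1 / (100 * (m : ℝ)))) (h : 2 + d - 2 * δ ≤ θ - s) :
    ∀ᵐ ω ∂P, ∃ m₀ : ℕ, ∀ m ∈ 𝓜, m₀ ≤ m → ∀ z ∈ Z m, |f m (X m ω) z| < (m : ℝ) ^ δ := by
  obtain ⟨C, hC, hmain, -⟩ := SetsOfSmallDimension.result Y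
  have key := Pool.Agent.R728.RC.finite_each (𝓜 := 𝓜) (s := s) (θ := θ) (A := K)
    (D := C * |A|) (X := X) (P := P) (Y := fun m => Fin (n m))
    (B := fun m => large (f m) (Z m) ((m : ℝ) ^ δ)) h0 hsum hX (by
      intro m hm
      have hm1 : (1 : ℝ) ≤ (m : ℝ) := by exact_mod_cast h0 m hm
      have hm0 : (0 : ℝ) < (m : ℝ) := by linarith
      refine ⟨Set.toFinite _, ?_⟩
      have h1 := (hmain (m : ℝ) hm1 (n m) (f m) (hf m hm) (Z m) (hZ m hm) (N m) (hc m hm)).2
        ((m : ℝ) ^ δ) (by positivity)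
      refine h1.trans ?_
      have h2 : (N m : ℝ) ≤ |A| * (m : ℝ) ^ d :=
        (hN m hm).trans (mul_le_mul_of_nonneg_right (le_abs_self A) (by positivity))
      rw [div_le_iff₀ (by positivity)]
      calc C * N m * (m : ℝ) ^ 2 ≤ C * (|A| * (m : ℝ) ^ d) * (m : ℝ) ^ 2 := by gcongr
        _ = C * |A| * (m : ℝ) ^ (2 + d - 2 * δ) * ((m : ℝ) ^ δ) ^ 2 := by
            have e1 : ((m : ℝ) ^ δ) ^ 2 = (m : ℝ) ^ (2 * δ) := by
              rw [← Real.rpow_natCast, ← Real.rpow_mul hm0.le]
              congr 1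
              push_cast
              ring
            have e2 : (m : ℝ) ^ 2 = (m : ℝ) ^ (2 : ℝ) := by norm_num
            rw [e1, mul_assoc (C * |A|), ← Real.rpow_add hm0, e2,
              show 2 + d - 2 * δ + 2 * δ = d + 2 by ring, Real.rpow_add hm0]
            ring
        _ ≤ C * |A| * (m : ℝ) ^ (θ - s) * ((m : ℝ) ^ δ) ^ 2 := by
            have e3 := Real.rpow_le_rpow_of_exponent_le hm1 h
            gcongr)
  filter_upwards [key] with ω hω
  obtain ⟨M, hM⟩ := hω.bddAbove
  refine ⟨M + 1, fun m hm hmM z hz => ?_⟩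
  by_contra hcon
  have h3 : m ∈ {m : ℕ | m ∈ 𝓜 ∧ X m ω ∈ large (f m) (Z m) ((m : ℝ) ^ δ)} :=
    ⟨hm, z, hz, not_lt.1 hcon⟩
  have := hM h3
  omega

end Pool.Agent.Results.MP_8fded1_nt.RandomForms
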